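import Mathlib

namespace Pool.Agent.Results.MP_09973c_nt.BoundedDegree

/-- Edge of the orbit graph on the projective line `OnePoint ℂ` of the correspondence
`z ↦ z^(p/q) + c`: there is `x` with `x^q = y` and `x^p + c = y'` (both maps send `∞` to `∞`). -/
def Edge (p q : ℕ) (c : ℂ) (y y' : OnePoint ℂ) : Prop :=
  ∃ x : OnePoint ℂ, OnePoint.map (fun z : ℂ => z ^ q) x = y ∧
    OnePoint.map (fun z : ℂ => z ^ p + c) x = y'

/-- A point is constrained when some infinite path starting at it has a finite vertex set. -/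
def Constrained (p q : ℕ) (c : ℂ) (y : OnePoint ℂ) : Prop :=
  ∃ path : ℕ → OnePoint ℂ, path 0 = y ∧ (∀ n, Edge p q c (path n) (path (n + 1))) ∧
    (Set.range path).Finite

/-- The point at infinity is always constrained. -/
theorem constrained_infty (p q : ℕ) (c : ℂ) : Constrained p q c OnePoint.infty :=
  ⟨fun _ => OnePoint.infty, rfl, fun _ => ⟨OnePoint.infty, rfl, rfl⟩, by
    simp⟩

theorem map_eq_coe {f : ℂ → ℂ} {x : OnePoint ℂ} {y : ℂ} (h : OnePoint.map f x = (y : OnePoint ℂ)) :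
    ∃ z : ℂ, x = (z : OnePoint ℂ) ∧ f z = y := by
  induction x using OnePoint.rec with
  | infty => simp at h
  | coe z => exact ⟨z, rfl, by simpa using h⟩

/-- A finite constrained point has a path made of finite points. -/
theorem exists_path {p q : ℕ} {c y : ℂ} (h : Constrained p q c y) :
    ∃ x w : ℕ → ℂ, w 0 = y ∧ (∀ n, x n ^ q = w n) ∧ (∀ n, x n ^ p + c = w (n + 1)) ∧
      (Set.range w).Finite := by
  obtain ⟨path, h0, hE, hfin⟩ := h
  have key : ∀ n, ∃ w : ℂ, path n = (w : OnePoint ℂ) := by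
    intro n
    induction n with
    | zero => exact ⟨y, h0⟩
    | succ n ih =>
      obtain ⟨w, hw⟩ := ih
      obtain ⟨x, hx1, hx2⟩ := hE n
      rw [hw] at hx1
      obtain ⟨z, hz, _⟩ := map_eq_coe hx1
      rw [hz] at hx2
      exact ⟨z ^ p + c, by rw [← hx2]; simp⟩
  choose w hw using key
  have key2 : ∀ n, ∃ x : ℂ, x ^ q = w n ∧ x ^ p + c = w (n + 1) := by
    intro n
    obtain ⟨x, hx1, hx2⟩ := hE n
    rw [hw n] at hx1
    obtain ⟨z, hz, hz2⟩ := map_eq_coe hx1
    rw [hz, hw (n + 1)] at hx2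
    refine ⟨z, hz2, ?_⟩
    simpa using hx2
  choose x hx using key2
  refine ⟨x, w, ?_, fun n => (hx n).1, fun n => (hx n).2, ?_⟩
  · have := hw 0
    rw [h0] at this
    exact (OnePoint.coe_injective this).symm
  · have : (fun z : ℂ => (z : OnePoint ℂ)) '' Set.range w = Set.range path := by
      ext t
      constructor
      · rintro ⟨_, ⟨n, rfl⟩, rfl⟩
        exact ⟨n, hw n⟩
      · rintro ⟨n, rfl⟩
        exact ⟨w n, ⟨n, rfl⟩, (hw n).symm⟩
    rw [← this] at hfin
    exact Set.Finite.of_finite_image hfin (OnePoint.coe_injective.injOn)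


section val

variable {Γ : Type*} [LinearOrderedCommGroupWithZero Γ] (v : Valuation ℂ Γ)

theorem one_lt_of_pow {q : ℕ} {z w : ℂ} (h : z ^ q = w) (hw : 1 < v w) : 1 < v z := by
  by_contra hz
  have hz : v z ≤ 1 := not_lt.mp hz
  have : v w ≤ 1 := by
    rw [← h, map_pow]
    exact pow_le_one₀ zero_le hz
  exact absurd hw (not_lt.mpr this)

theorem le_one_of_pow {q : ℕ} (hq : 0 < q) {z w : ℂ} (h : z ^ q = w) (hw : v w ≤ 1) : v z ≤ 1 := by
  by_contra hz
  have hz : 1 < v z := not_le.mp hz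
  have : 1 < v w := by
    rw [← h, map_pow]
    exact one_lt_pow₀ hz hq.ne'
  exact absurd this (not_lt.mpr hw)

/-- If `v c ≤ 1` then every finite constrained point `y` has `v y ≤ 1`. -/
theorem val_le_one {p q : ℕ} (hp : 0 < p) (hpq : p ≠ q) {c : ℂ} (hc : v c ≤ 1)
    {x w : ℕ → ℂ} (hx : ∀ n, x n ^ q = w n) (hw : ∀ n, x n ^ p + c = w (n + 1))
    (hfin : (Set.range w).Finite) : v (w 0) ≤ 1 := by
  by_contra h0
  have h0 : 1 < v (w 0) := not_le.mp h0
  have step : ∀ n, 1 < v (w n) → v (w (n + 1)) = v (x n) ^ p := by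
    intro n hn
    have h1 : 1 < v (x n) := one_lt_of_pow v (hx n) hn
    have h2 : v c < v (x n ^ p) := by
      rw [map_pow]
      exact lt_of_le_of_lt hc (one_lt_pow₀ h1 hp.ne')
    rw [← hw n, v.map_add_eq_of_lt_left h2, map_pow]
  have hall : ∀ n, 1 < v (w n) := by
    intro n
    induction n with
    | zero => exact h0
    | succ n ih =>
      rw [step n ih]
      exact one_lt_pow₀ (one_lt_of_pow v (hx n) ih) hp.ne'
  have hwq : ∀ n, v (w n) = v (x n) ^ q := fun n => by rw [← hx n, map_pow]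
  have hinf : ∀ f : ℕ → Γ, (f = fun n => v (w n)) → Function.Injective f → False := by
    intro f hf hinj
    have : Function.Injective w := by
      intro i j hij
      apply hinj
      rw [hf]
      simp only [hij]
    exact (Set.infinite_range_of_injective this) hfin
  rcases lt_or_gt_of_ne hpq with hlt | hgt
  · have hanti : StrictAnti (fun n => v (w n)) := by
      apply strictAnti_nat_of_succ_lt
      intro n
      rw [step n (hall n), hwq n]
      exact pow_lt_pow_right₀ (one_lt_of_pow v (hx n) (hall n)) hlt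
    exact hinf _ rfl hanti.injective
  · have hmono : StrictMono (fun n => v (w n)) := by
      apply strictMono_nat_of_lt_succ
      intro n
      rw [step n (hall n), hwq n]
      exact pow_lt_pow_right₀ (one_lt_of_pow v (hx n) (hall n)) hgt
    exact hinf _ rfl hmono.injective


/-- `q < p`, `v c > 1`: along a constrained path one never has `v c < v (x^p)`. -/
theorem not_grow {p q : ℕ} (hqp : q < p) {c : ℂ} (hc : 1 < v c)
    {x w : ℕ → ℂ} (hx : ∀ n, x n ^ q = w n) (hw : ∀ n, x n ^ p + c = w (n + 1))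
    (hfin : (Set.range w).Finite) : ¬ v c < v (x 0) ^ p := by
  intro h0
  have hwq : ∀ n, v (w n) = v (x n) ^ q := fun n => by rw [← hx n, map_pow]
  have step : ∀ n, v c < v (x n) ^ p → v (w (n + 1)) = v (x n) ^ p := by
    intro n hn
    have h2 : v c < v (x n ^ p) := by rwa [map_pow]
    rw [← hw n, v.map_add_eq_of_lt_left h2, map_pow]
  have hall : ∀ n, v c < v (x n) ^ p := by
    intro n
    induction n with
    | zero => exact h0
    | succ n ih =>
      have h1 : 1 < v (w (n + 1)) := by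
        rw [step n ih]
        exact hc.trans ih
      have h2 : 1 < v (x (n + 1)) := one_lt_of_pow v (hx (n + 1)) h1
      calc v c < v (x n) ^ p := ih
        _ = v (w (n + 1)) := (step n ih).symm
        _ = v (x (n + 1)) ^ q := hwq (n + 1)
        _ < v (x (n + 1)) ^ p := pow_lt_pow_right₀ h2 hqp
  have hmono : StrictMono (fun n => v (w n)) := by
    apply strictMono_nat_of_lt_succ
    intro n
    have h1 : 1 < v (x n) := by
      by_contra hle
      have h3 : v (x n) ^ p ≤ 1 := pow_le_one₀ zero_le (not_lt.mp hle)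
      exact absurd (hc.trans (hall n)) (not_lt.mpr h3)
    rw [step n (hall n), hwq n]
    exact pow_lt_pow_right₀ h1 hqp
  have hinj : Function.Injective w := by
    intro i j hij
    apply hmono.injective
    simp only [hij]
  exact (Set.infinite_range_of_injective hinj) hfin

/-- `q < p`, `v c > 1`: the point `x 0 ^ q` is constrained only if `v (x 0) ^ p = v c`. -/
theorem val_pow_eq {p q : ℕ} (hqp : q < p) {c : ℂ} (hc : 1 < v c)
    {x w : ℕ → ℂ} (hx : ∀ n, x n ^ q = w n) (hw : ∀ n, x n ^ p + c = w (n + 1))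
    (hfin : (Set.range w).Finite) : v (x 0) ^ p = v c := by
  rcases lt_trichotomy (v (x 0) ^ p) (v c) with h | h | h
  · exfalso
    have h2 : v (x 0 ^ p) < v c := by rwa [map_pow]
    have hw1 : v (w 1) = v c := by
      rw [← hw 0, v.map_add_eq_of_lt_right h2]
    have hx1 : v (x 1) ^ q = v c := by rw [← map_pow, hx 1, hw1]
    have h1 : 1 < v (x 1) := one_lt_of_pow v (hx 1) (by rw [hw1]; exact hc)
    have h3 : v c < v (x 1) ^ p := by
      rw [← hx1]
      exact pow_lt_pow_right₀ h1 hqp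
    exact not_grow v hqp hc (x := fun n => x (n + 1)) (w := fun n => w (n + 1))
      (fun n => hx (n + 1)) (fun n => hw (n + 1))
      (hfin.subset (by rintro _ ⟨n, rfl⟩; exact ⟨n + 1, rfl⟩)) h3
  · exact h
  · exact absurd h (not_grow v hqp hc hx hw hfin)

/-- `q < p`: a common finite constrained point forces `v a ≤ max 1 (v b)`. -/
theorem val_le_max {p q : ℕ} (hq : 0 < q) (hqp : q < p) {a b y : ℂ}
    (ha : Constrained p q a y) (hb : Constrained p q b y) : v a ≤ max 1 (v b) := by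
  obtain ⟨x, w, h0, hx, hw, hfin⟩ := exists_path ha
  obtain ⟨x', w', h0', hx', hw', hfin'⟩ := exists_path hb
  by_contra hcon
  have hcon := not_le.mp hcon
  have ha1 : 1 < v a := lt_of_le_of_lt (le_max_left _ _) hcon
  have hba : v b < v a := lt_of_le_of_lt (le_max_right _ _) hcon
  have e1 := val_pow_eq v hqp ha1 hx hw hfin
  have hxx : v (x 0) = v (x' 0) := by
    have h1 : v (x 0) ^ q = v (x' 0) ^ q := by
      rw [← map_pow, ← map_pow, hx 0, hx' 0, h0, h0']
    exact (pow_left_inj₀ zero_le zero_le hq.ne').mp h1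
  by_cases hb1 : 1 < v b
  · have e2 := val_pow_eq v hqp hb1 hx' hw' hfin'
    rw [← hxx, e1] at e2
    exact absurd e2 hba.ne'
  · have h1 := val_le_one v (lt_trans hq hqp) hqp.ne' (not_lt.mp hb1) hx' hw' hfin'
    have h2 : v (x' 0) ≤ 1 := le_one_of_pow v hq (hx' 0) h1
    have h3 : v a ≤ 1 := by
      rw [← e1, hxx]
      exact pow_le_one₀ zero_le h2
    exact absurd ha1 (not_lt.mpr h3)

end val

/-- The common point forces integrality, from one side. -/
theorem integral_of_mem {s : Set ℂ} {a : ℂ}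
    (h : ∀ V : ValuationSubring ℂ, (∀ t ∈ s, V.valuation t ≤ 1) → V.valuation a ≤ 1) :
    IsIntegral (Subring.closure s) a := by
  have h1 : a ∈ (⨅ V : {V : ValuationSubring ℂ // s ⊆ V.toSubring}, V.1.toSubring) := by
    rw [Subring.mem_iInf]
    rintro ⟨V, hV⟩
    have := h V (fun t ht => (V.valuation_le_one_iff t).mpr (hV ht))
    exact (V.valuation_le_one_iff a).mp this
  rw [iInf_valuationSubring_superset] at h1
  exact h1


section arch

/-- Archimedean escape: along a constrained path every `x` has norm less than `2 + ‖c‖`. -/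
theorem norm_lt {p q : ℕ} (hq : 0 < q) (hqp : q < p) {c : ℂ}
    {x w : ℕ → ℂ} (hx : ∀ n, x n ^ q = w n) (hw : ∀ n, x n ^ p + c = w (n + 1))
    (hfin : (Set.range w).Finite) : ‖x 0‖ < 2 + ‖c‖ := by
  by_contra h0
  have h0 := not_lt.mp h0
  have hc0 : 0 ≤ ‖c‖ := norm_nonneg c
  have step : ∀ n, 2 + ‖c‖ ≤ ‖x n‖ → ‖x n‖ < ‖x (n + 1)‖ := by
    intro n hn
    have h1 : (1 : ℝ) ≤ ‖x n‖ := by linarith
    have h2 : ‖x (n + 1)‖ ^ q = ‖x n ^ p + c‖ := by rw [← norm_pow, hx, hw]
    have h3 : ‖x n‖ ^ p - ‖c‖ ≤ ‖x n ^ p + c‖ := by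
      have := norm_sub_norm_le (x n ^ p) (-c)
      rw [norm_neg, sub_neg_eq_add, norm_pow] at this
      exact this
    have h4 : ‖x n‖ ^ (q + 1) ≤ ‖x n‖ ^ p := pow_le_pow_right₀ h1 hqp
    have h5 : (1 : ℝ) ≤ ‖x n‖ ^ q := one_le_pow₀ h1
    have h6 : ‖x n‖ ^ q < ‖x (n + 1)‖ ^ q := by
      rw [h2]
      have h7 : (2 + ‖c‖) * ‖x n‖ ^ q ≤ ‖x n‖ ^ (q + 1) := by
        rw [pow_succ, mul_comm]
        exact mul_le_mul_of_nonneg_left hn (by positivity)
      nlinarith
    exact lt_of_pow_lt_pow_left₀ q (norm_nonneg _) h6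
  have hall : ∀ n, 2 + ‖c‖ ≤ ‖x n‖ := by
    intro n
    induction n with
    | zero => exact h0
    | succ n ih => exact ih.trans (step n ih).le
  have hmono : StrictMono (fun n => ‖x n‖) := strictMono_nat_of_lt_succ (fun n => step n (hall n))
  have hinj : Function.Injective w := by
    intro i j hij
    apply hmono.injective
    have h1 : ‖x i‖ ^ q = ‖x j‖ ^ q := by rw [← norm_pow, ← norm_pow, hx, hx, hij]
    exact (pow_left_inj₀ (norm_nonneg _) (norm_nonneg _) hq.ne').mp h1
  exact (Set.infinite_range_of_injective hinj) hfin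

/-- A constrained point with a small `x 0` forces `c` to be small. -/
theorem norm_param_le {p q : ℕ} (hqp : q < p) {c : ℂ} {r : ℝ} (hr : 0 ≤ r)
    {x w : ℕ → ℂ} (hx : ∀ n, x n ^ q = w n) (hw : ∀ n, x n ^ p + c = w (n + 1))
    (hfin : (Set.range w).Finite) (hx0 : ‖x 0‖ ≤ r) :
    ‖c‖ ≤ (3 + r ^ p) ^ q + r ^ p := by
  obtain ⟨_, ⟨n0, rfl⟩, hmax⟩ := Set.exists_max_image (Set.range w) (fun z => ‖z‖) hfin ⟨w 0, 0, rfl⟩
  have hmax' : ∀ n, ‖w n‖ ≤ ‖x n0‖ ^ q := by
    intro n
    have := hmax (w n) ⟨n, rfl⟩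
    rwa [← norm_pow, hx n0]
  have hrp : 0 ≤ r ^ p := pow_nonneg hr p
  have hc : ‖c‖ ≤ ‖x n0‖ ^ q + r ^ p := by
    have h1 : c = w 1 - x 0 ^ p := by rw [← hw 0]; ring
    have h2 : ‖x 0 ^ p‖ ≤ r ^ p := by
      rw [norm_pow]
      exact pow_le_pow_left₀ (norm_nonneg _) hx0 p
    calc ‖c‖ = ‖w 1 - x 0 ^ p‖ := by rw [← h1]
      _ ≤ ‖w 1‖ + ‖x 0 ^ p‖ := norm_sub_le _ _
      _ ≤ _ := add_le_add (hmax' 1) h2
  have ht : ‖x n0‖ ^ p ≤ 2 * ‖x n0‖ ^ q + r ^ p := by
    have h1 : x n0 ^ p = w (n0 + 1) - c := by rw [← hw n0]; ring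
    have h2 : ‖x n0‖ ^ p ≤ ‖w (n0 + 1)‖ + ‖c‖ := by
      rw [← norm_pow, h1]
      exact norm_sub_le _ _
    have h3 := hmax' (n0 + 1)
    linarith
  have hle : ‖x n0‖ ≤ 3 + r ^ p := by
    by_contra hlt
    have hlt := not_le.mp hlt
    have h1 : (1 : ℝ) ≤ ‖x n0‖ := by linarith
    have h4 : ‖x n0‖ ^ (q + 1) ≤ ‖x n0‖ ^ p := pow_le_pow_right₀ h1 hqp
    have h5 : (1 : ℝ) ≤ ‖x n0‖ ^ q := one_le_pow₀ h1
    have h7 : (3 + r ^ p) * ‖x n0‖ ^ q ≤ ‖x n0‖ ^ (q + 1) := by
      rw [pow_succ, mul_comm]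
      exact mul_le_mul_of_nonneg_left hlt.le (by positivity)
    nlinarith
  have h8 : ‖x n0‖ ^ q ≤ (3 + r ^ p) ^ q := pow_le_pow_left₀ (norm_nonneg _) hle q
  linarith

/-- The explicit bound on `‖a‖` in terms of a bound on `‖b‖`. -/
noncomputable def psi (p q : ℕ) (B : ℝ) : ℝ := (3 + (2 + B) ^ p) ^ q + (2 + B) ^ p

theorem norm_le_psi {p q : ℕ} (hq : 0 < q) (hqp : q < p) {a b : ℂ} {B : ℝ} (hB : ‖b‖ ≤ B)
    {x w : ℕ → ℂ} (hx : ∀ n, x n ^ q = w n) (hw : ∀ n, x n ^ p + a = w (n + 1))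
    (hfin : (Set.range w).Finite)
    {x' w' : ℕ → ℂ} (hx' : ∀ n, x' n ^ q = w' n) (hw' : ∀ n, x' n ^ p + b = w' (n + 1))
    (hfin' : (Set.range w').Finite) (h : w 0 = w' 0) : ‖a‖ ≤ psi p q B := by
  have h1 : ‖x' 0‖ < 2 + ‖b‖ := norm_lt hq hqp hx' hw' hfin'
  have h2 : ‖x 0‖ = ‖x' 0‖ := by
    have h3 : ‖x 0‖ ^ q = ‖x' 0‖ ^ q := by rw [← norm_pow, ← norm_pow, hx, hx', h]
    exact (pow_left_inj₀ (norm_nonneg _) (norm_nonneg _) hq.ne').mp h3
  have hB0 : 0 ≤ B := (norm_nonneg _).trans hB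
  exact norm_param_le hqp (by linarith) hx hw hfin (by rw [h2]; linarith)

end arch

section alg

/-- every point of a constrained path over algebraic `a` is algebraic -/
theorem mem_algClosure {p q : ℕ} (hp : 0 < p) (hq : 0 < q) (hpq : p ≠ q) {a : ℂ}
    (ha : a ∈ algebraicClosure ℚ ℂ)
    {x w : ℕ → ℂ} (hx : ∀ n, x n ^ q = w n) (hw : ∀ n, x n ^ p + a = w (n + 1))
    (hfin : (Set.range w).Finite) (n : ℕ) : x n ∈ algebraicClosure ℚ ℂ := by
  have hint : IsIntegral (Subring.closure ((algebraicClosure ℚ ℂ : IntermediateField ℚ ℂ) : Set ℂ))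
      (x n) := by
    apply integral_of_mem
    intro V hV
    have h1 := val_le_one V.valuation hp hpq (hV a ha) (x := fun k => x (n + k))
      (w := fun k => w (n + k)) (fun k => hx (n + k)) (fun k => hw (n + k))
      (hfin.subset (by rintro _ ⟨k, rfl⟩; exact ⟨n + k, rfl⟩))
    exact le_one_of_pow V.valuation hq (hx n) h1
  have hle : Subring.closure ((algebraicClosure ℚ ℂ : IntermediateField ℚ ℂ) : Set ℂ) ≤
      (algebraicClosure ℚ ℂ).toSubfield.toSubring := by
    rw [Subring.closure_le]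
    intro t ht
    exact ht
  have h2 : IsIntegral (algebraicClosure ℚ ℂ) (x n) :=
    IsIntegral.map_of_comp_eq (T := algebraicClosure ℚ ℂ) (U := ℂ) (Subring.inclusion hle)
      (RingHom.id ℂ) rfl hint
  have : Algebra.IsIntegral ℚ (algebraicClosure ℚ ℂ) :=
    Algebra.isAlgebraic_iff_isIntegral.mp (algebraicClosure.isAlgebraic ℚ ℂ)
  exact isIntegral_trans (R := ℚ) (A := algebraicClosure ℚ ℂ) (x n) h2

/-- Transport of the archimedean bound along an embedding of the algebraic numbers. -/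
theorem conj_bound {p q : ℕ} (hq : 0 < q) (hqp : q < p) {a b y : ℂ}
    (ha : a ∈ algebraicClosure ℚ ℂ) (hb : b ∈ algebraicClosure ℚ ℂ)
    (hya : Constrained p q a y) (hyb : Constrained p q b y)
    (σ : algebraicClosure ℚ ℂ →ₐ[ℚ] ℂ) {B : ℝ} (hB : ‖σ ⟨b, hb⟩‖ ≤ B) :
    ‖σ ⟨a, ha⟩‖ ≤ psi p q B := by
  obtain ⟨x, w, h0, hx, hw, hfin⟩ := exists_path hya
  obtain ⟨x', w', h0', hx', hw', hfin'⟩ := exists_path hyb
  have hp : 0 < p := lt_trans hq hqp
  have hxA := mem_algClosure hp hq hqp.ne' ha hx hw hfin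
  have hxA' := mem_algClosure hp hq hqp.ne' hb hx' hw' hfin'
  have hwA : ∀ n, w n ∈ algebraicClosure ℚ ℂ := fun n => by rw [← hx n]; exact pow_mem (hxA n) q
  have hwA' : ∀ n, w' n ∈ algebraicClosure ℚ ℂ :=
    fun n => by rw [← hx' n]; exact pow_mem (hxA' n) q
  have fin_aux : ∀ (u : ℕ → ℂ) (hu : ∀ n, u n ∈ algebraicClosure ℚ ℂ),
      (Set.range u).Finite → (Set.range (fun n => σ ⟨u n, hu n⟩)).Finite := by
    intro u hu hf
    have h1 : (Set.range (fun n => (⟨u n, hu n⟩ : algebraicClosure ℚ ℂ))).Finite := by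
      apply Set.Finite.of_finite_image (f := Subtype.val) _ Subtype.val_injective.injOn
      rw [← Set.range_comp]
      exact hf
    have h2 := h1.image σ
    rw [← Set.range_comp] at h2
    exact h2
  refine norm_le_psi hq hqp hB (x := fun n => σ ⟨x n, hxA n⟩) (w := fun n => σ ⟨w n, hwA n⟩)
    (x' := fun n => σ ⟨x' n, hxA' n⟩) (w' := fun n => σ ⟨w' n, hwA' n⟩) ?_ ?_ ?_ ?_ ?_ ?_ ?_
  · intro n
    rw [← map_pow]
    congr 1
    exact Subtype.ext (hx n)
  · intro n
    rw [← map_pow, ← map_add]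
    congr 1
    exact Subtype.ext (hw n)
  · exact fin_aux w hwA hfin
  · intro n
    rw [← map_pow]
    congr 1
    exact Subtype.ext (hx' n)
  · intro n
    rw [← map_pow, ← map_add]
    congr 1
    exact Subtype.ext (hw' n)
  · exact fin_aux w' hwA' hfin'
  · congr 1
    exact Subtype.ext (h0.trans h0'.symm)

/-- Finiteness of algebraic integers of bounded degree with bounded conjugates. -/
theorem finite_integers (D : ℕ) (B : ℝ) :
    {z : ℂ | IsIntegral ℤ z ∧ (minpoly ℚ z).natDegree ≤ D ∧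
      ∀ t ∈ ((minpoly ℚ z).map (algebraMap ℚ ℂ)).roots, ‖t‖ ≤ B}.Finite := by
  classical
  let C := Nat.ceil (max B 1 ^ D * (D.choose (D / 2)))
  have := Polynomial.bUnion_roots_finite (algebraMap ℤ ℂ) D (Set.finite_Icc (-C : ℤ) C)
  refine this.subset fun x hx => ?_
  obtain ⟨hx1, hx2, hx3⟩ := hx
  simp_rw [Set.mem_iUnion]
  have h_map := minpoly.isIntegrallyClosed_eq_field_fractions' ℚ hx1
  refine ⟨minpoly ℤ x, ⟨?_, fun i => ?_⟩, ?_⟩
  · rw [← (minpoly.monic hx1).natDegree_map (algebraMap ℤ ℚ), ← h_map]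
    exact hx2
  · rw [Set.mem_Icc, ← abs_le, ← @Int.cast_le ℝ]
    have hmonic : (minpoly ℚ x).Monic := minpoly.monic (hx1.tower_top)
    have h5 := Polynomial.coeff_bdd_of_roots_le (algebraMap ℚ ℂ) hmonic (IsAlgClosed.splits _)
      hx2 hx3 i
    refine (Eq.trans_le ?_ h5).trans (Nat.le_ceil _)
    rw [Polynomial.coeff_map, h_map, Polynomial.coeff_map, eq_intCast, Int.cast_abs]
    simp
  · exact Polynomial.mem_rootSet.2 ⟨minpoly.ne_zero hx1, minpoly.aeval ℤ x⟩

end alg

/-- For coprime `q < p`, any `b` and any degree bound `D`, only finitely many algebraic numbers `a`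
of degree at most `D` have a common constrained point with `b` other than `∞`. -/
theorem result (p q : ℕ) (hq : 0 < q) (hqp : q < p) (_hpq : Nat.Coprime p q) (b : ℂ) (D : ℕ) :
    {a : ℂ | IsAlgebraic ℚ a ∧ (minpoly ℚ a).natDegree ≤ D ∧
      {y : OnePoint ℂ | Constrained p q a y ∧ Constrained p q b y} ≠ {OnePoint.infty}}.Finite := by
  classical
  have hset : ∀ a : ℂ,
      {y : OnePoint ℂ | Constrained p q a y ∧ Constrained p q b y} ≠ {OnePoint.infty} →
      ∃ y : ℂ, Constrained p q a y ∧ Constrained p q b y := by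
    intro a h
    by_contra hno
    push Not at hno
    apply h
    ext y
    induction y using OnePoint.rec with
    | infty => simp [constrained_infty]
    | coe z =>
      simp only [Set.mem_ofPred_eq, Set.mem_singleton_iff, OnePoint.coe_ne_infty, iff_false,
        not_and]
      exact hno z
  rcases Set.eq_empty_or_nonempty {a : ℂ | IsAlgebraic ℚ a ∧ (minpoly ℚ a).natDegree ≤ D ∧
      {y : OnePoint ℂ | Constrained p q a y ∧ Constrained p q b y} ≠ {OnePoint.infty}} with he | hne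
  · rw [he]; exact Set.finite_empty
  have hbA : b ∈ algebraicClosure ℚ ℂ := by
    obtain ⟨a, ha, -, hy⟩ := hne
    obtain ⟨y, hya, hyb⟩ := hset a hy
    have hint : IsIntegral
        (Subring.closure ((algebraicClosure ℚ ℂ : IntermediateField ℚ ℂ) : Set ℂ)) b := by
      apply integral_of_mem
      intro V hV
      have h1 := val_le_max V.valuation hq hqp hyb hya
      exact h1.trans (max_le le_rfl (hV a ha.isIntegral))
    have hle : Subring.closure ((algebraicClosure ℚ ℂ : IntermediateField ℚ ℂ) : Set ℂ) ≤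
        (algebraicClosure ℚ ℂ).toSubfield.toSubring := by
      rw [Subring.closure_le]
      intro t ht
      exact ht
    have h2 : IsIntegral (algebraicClosure ℚ ℂ) b :=
      IsIntegral.map_of_comp_eq (T := algebraicClosure ℚ ℂ) (U := ℂ) (Subring.inclusion hle)
        (RingHom.id ℂ) rfl hint
    have : Algebra.IsIntegral ℚ (algebraicClosure ℚ ℂ) :=
      Algebra.isAlgebraic_iff_isIntegral.mp (algebraicClosure.isAlgebraic ℚ ℂ)
    exact isIntegral_trans (R := ℚ) (A := algebraicClosure ℚ ℂ) b h2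
  have hbalgQ : IsAlgebraic ℚ b := IsIntegral.isAlgebraic hbA
  have hbalg : IsAlgebraic ℤ b := (IsFractionRing.isAlgebraic_iff ℤ ℚ ℂ).mpr hbalgQ
  obtain ⟨d, hd0, hdb⟩ := hbalg.exists_integral_multiple
  have hdC : (d : ℂ) ≠ 0 := by exact_mod_cast hd0
  obtain ⟨B, hB⟩ : ∃ B : ℝ, ∀ t ∈ ((minpoly ℚ b).map (algebraMap ℚ ℂ)).roots, ‖t‖ ≤ B := by
    obtain ⟨B, hB⟩ :=
      (((minpoly ℚ b).map (algebraMap ℚ ℂ)).roots.toFinset.finite_toSet.image norm).bddAbove
    exact ⟨B, fun t ht => hB ⟨t, by simpa using ht, rfl⟩⟩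
  have hfin := finite_integers D (|(d : ℝ)| * psi p q B)
  have hinj : Set.InjOn (fun a : ℂ => (d : ℂ) * a) Set.univ := by
    intro s _ t _ h
    exact mul_left_cancel₀ hdC h
  refine Set.Finite.of_finite_image (f := fun a : ℂ => (d : ℂ) * a) (hfin.subset ?_)
    (hinj.mono (Set.subset_univ _))
  rintro _ ⟨a, ⟨haalg, hadeg, hy⟩, rfl⟩
  obtain ⟨y, hya, hyb⟩ := hset a hy
  have haA : a ∈ algebraicClosure ℚ ℂ := haalg.isIntegral
  have hzA : (d : ℂ) * a ∈ algebraicClosure ℚ ℂ :=
    mul_mem (intCast_mem _ d) haA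
  refine ⟨?_, ?_, ?_⟩
  · -- integrality
    have h1 : IsIntegral (Subring.closure (∅ : Set ℂ)) ((d : ℂ) * a) := by
      apply integral_of_mem
      intro V _
      have hdV : V.valuation (d : ℂ) ≤ 1 := (V.valuation_le_one_iff _).mpr (intCast_mem V d)
      have hdbV : V.valuation ((d : ℂ) * b) ≤ 1 := by
        rw [V.valuation_le_one_iff]
        have h2 : IsIntegral V ((d : ℂ) * b) := by
          have h3 : IsIntegral ℤ ((d : ℂ) * b) := by simpa using hdb
          exact h3.tower_top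
        obtain ⟨⟨t, ht⟩, h4⟩ := IsIntegrallyClosed.isIntegral_iff.mp h2
        rw [← h4]
        exact ht
      have h5 := val_le_max V.valuation hq hqp hya hyb
      calc V.valuation ((d : ℂ) * a) = V.valuation (d : ℂ) * V.valuation a := map_mul _ _ _
        _ ≤ V.valuation (d : ℂ) * max 1 (V.valuation b) := mul_le_mul_right h5 _
        _ ≤ 1 := by
          rcases le_total (V.valuation b) 1 with h | h
          · rw [max_eq_left h, mul_one]; exact hdV
          · rw [max_eq_right h, ← map_mul]; exact hdbV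
    have h6 : Algebra.IsIntegral ℤ (Subring.closure (∅ : Set ℂ)) := by
      constructor
      rintro ⟨t, ht⟩
      have ht' := ht
      rw [Subring.closure_empty] at ht'
      obtain ⟨n, rfl⟩ := Subring.mem_bot.mp ht'
      have : (⟨(n : ℂ), ht⟩ : Subring.closure (∅ : Set ℂ)) = algebraMap ℤ _ n := by
        apply Subtype.ext
        simp
      rw [this]
      exact isIntegral_algebraMap
    exact isIntegral_trans (R := ℤ) (A := Subring.closure (∅ : Set ℂ)) _ h1
  · -- degree
    refine le_trans ?_ hadeg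
    have hfd : FiniteDimensional ℚ (IntermediateField.adjoin ℚ {a}) :=
      IntermediateField.adjoin.finiteDimensional haalg.isIntegral
    have hmem : (d : ℂ) * a ∈ IntermediateField.adjoin ℚ {a} :=
      mul_mem (intCast_mem _ d) (IntermediateField.mem_adjoin_simple_self ℚ a)
    have h1 := minpoly.natDegree_le (A := ℚ) (⟨(d : ℂ) * a, hmem⟩ : IntermediateField.adjoin ℚ {a})
    rw [IntermediateField.adjoin.finrank haalg.isIntegral] at h1
    rwa [← minpoly.algebraMap_eq (A := ℚ) (B := IntermediateField.adjoin ℚ {a}) (B' := ℂ)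
      (algebraMap (IntermediateField.adjoin ℚ {a}) ℂ).injective] at h1
  · -- conjugates
    intro t ht
    have hAalg : ∀ s : algebraicClosure ℚ ℂ, IsIntegral ℚ s ∧
        ((minpoly ℚ s).map (algebraMap ℚ ℂ)).Splits := fun s =>
      ⟨(Algebra.isAlgebraic_iff_isIntegral.mp (algebraicClosure.isAlgebraic ℚ ℂ)).isIntegral s,
        IsAlgClosed.splits _⟩
    have hmp : minpoly ℚ (⟨(d : ℂ) * a, hzA⟩ : algebraicClosure ℚ ℂ) = minpoly ℚ ((d : ℂ) * a) :=
      (minpoly.algebraMap_eq (A := ℚ) (B := algebraicClosure ℚ ℂ) (B' := ℂ)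
        (algebraMap (algebraicClosure ℚ ℂ) ℂ).injective _).symm
    have hroot : Polynomial.aeval t (minpoly ℚ (⟨(d : ℂ) * a, hzA⟩ : algebraicClosure ℚ ℂ)) = 0 := by
      rw [hmp]
      have h1 := (Polynomial.mem_roots'.mp ht).2
      rwa [Polynomial.IsRoot.def, Polynomial.eval_map_algebraMap] at h1
    obtain ⟨σ, hσ⟩ := IntermediateField.exists_algHom_of_splits_of_aeval hAalg hroot
    have hσ2 : t = (d : ℂ) * σ ⟨a, haA⟩ := by
      rw [← hσ]
      have : (⟨(d : ℂ) * a, hzA⟩ : algebraicClosure ℚ ℂ) = (d : algebraicClosure ℚ ℂ) * ⟨a, haA⟩ :=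
        Subtype.ext (by simp)
      rw [this, map_mul, map_intCast]
    have hσb : ‖σ ⟨b, hbA⟩‖ ≤ B := by
      apply hB
      rw [Polynomial.mem_roots (Polynomial.map_ne_zero (minpoly.ne_zero hbA)),
        Polynomial.IsRoot.def, Polynomial.eval_map_algebraMap]
      have hmpb : minpoly ℚ (⟨b, hbA⟩ : algebraicClosure ℚ ℂ) = minpoly ℚ b :=
        (minpoly.algebraMap_eq (A := ℚ) (B := algebraicClosure ℚ ℂ) (B' := ℂ)
          (algebraMap (algebraicClosure ℚ ℂ) ℂ).injective _).symm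
      rw [← hmpb, Polynomial.aeval_algHom_apply, minpoly.aeval, map_zero]
    have h9 := conj_bound hq hqp haA hbA hya hyb σ hσb
    rw [hσ2, norm_mul, Complex.norm_intCast]
    exact mul_le_mul_of_nonneg_left h9 (abs_nonneg _)

end Pool.Agent.Results.MP_09973c_nt.BoundedDegree
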