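import Mathlib

namespace Pool.Agent.Results.MP_09973c_nt.Integrality

/-- Edge of the orbit graph on the projective line `OnePoint ℂ` of the correspondence
`z ↦ z^(p/q) + c`: there is `x` with `x^q = y` and `x^p + c = y'` (both maps send `∞` to `∞`). -/
def Edge (p q : ℕ) (c : ℂ) (y y' : OnePoint ℂ) : Prop :=
  ∃ x : OnePoint ℂ, OnePoint.map (fun z : ℂ => z ^ q) x = y ∧
    OnePoint.map (fun z : ℂ => z ^ p + c) x = y'

/-- A point is constrained when some infinite path starting at it has a finite vertex set. -/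
def Constrained (p q : ℕ) (c : ℂ) (y : OnePoint ℂ) : Prop :=
  ∃ path : ℕ → OnePoint ℂ, path 0 = y ∧ (∀ n, Edge p q c (path n) (path (n + 1))) ∧
    (Set.range path).Finite

/-- The point at infinity is always constrained. -/
theorem constrained_infty (p q : ℕ) (c : ℂ) : Constrained p q c OnePoint.infty :=
  ⟨fun _ => OnePoint.infty, rfl, fun _ => ⟨OnePoint.infty, rfl, rfl⟩, by
    simp⟩

theorem map_eq_coe {f : ℂ → ℂ} {x : OnePoint ℂ} {y : ℂ} (h : OnePoint.map f x = (y : OnePoint ℂ)) :
    ∃ z : ℂ, x = (z : OnePoint ℂ) ∧ f z = y := by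
  induction x using OnePoint.rec with
  | infty => simp at h
  | coe z => exact ⟨z, rfl, by simpa using h⟩

/-- A finite constrained point has a path made of finite points. -/
theorem exists_path {p q : ℕ} {c y : ℂ} (h : Constrained p q c y) :
    ∃ x w : ℕ → ℂ, w 0 = y ∧ (∀ n, x n ^ q = w n) ∧ (∀ n, x n ^ p + c = w (n + 1)) ∧
      (Set.range w).Finite := by
  obtain ⟨path, h0, hE, hfin⟩ := h
  have key : ∀ n, ∃ w : ℂ, path n = (w : OnePoint ℂ) := by
    intro n
    induction n with
    | zero => exact ⟨y, h0⟩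
    | succ n ih =>
      obtain ⟨w, hw⟩ := ih
      obtain ⟨x, hx1, hx2⟩ := hE n
      rw [hw] at hx1
      obtain ⟨z, hz, _⟩ := map_eq_coe hx1
      rw [hz] at hx2
      exact ⟨z ^ p + c, by rw [← hx2]; simp⟩
  choose w hw using key
  have key2 : ∀ n, ∃ x : ℂ, x ^ q = w n ∧ x ^ p + c = w (n + 1) := by
    intro n
    obtain ⟨x, hx1, hx2⟩ := hE n
    rw [hw n] at hx1
    obtain ⟨z, hz, hz2⟩ := map_eq_coe hx1
    rw [hz, hw (n + 1)] at hx2
    refine ⟨z, hz2, ?_⟩
    simpa using hx2
  choose x hx using key2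
  refine ⟨x, w, ?_, fun n => (hx n).1, fun n => (hx n).2, ?_⟩
  · have := hw 0
    rw [h0] at this
    exact (OnePoint.coe_injective this).symm
  · have : (fun z : ℂ => (z : OnePoint ℂ)) '' Set.range w = Set.range path := by
      ext t
      constructor
      · rintro ⟨_, ⟨n, rfl⟩, rfl⟩
        exact ⟨n, hw n⟩
      · rintro ⟨n, rfl⟩
        exact ⟨w n, ⟨n, rfl⟩, (hw n).symm⟩
    rw [← this] at hfin
    exact Set.Finite.of_finite_image hfin (OnePoint.coe_injective.injOn)


section val

variable {Γ : Type*} [LinearOrderedCommGroupWithZero Γ] (v : Valuation ℂ Γ)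

theorem one_lt_of_pow {q : ℕ} {z w : ℂ} (h : z ^ q = w) (hw : 1 < v w) : 1 < v z := by
  by_contra hz
  have hz : v z ≤ 1 := not_lt.mp hz
  have : v w ≤ 1 := by
    rw [← h, map_pow]
    exact pow_le_one₀ zero_le hz
  exact absurd hw (not_lt.mpr this)

theorem le_one_of_pow {q : ℕ} (hq : 0 < q) {z w : ℂ} (h : z ^ q = w) (hw : v w ≤ 1) : v z ≤ 1 := by
  by_contra hz
  have hz : 1 < v z := not_le.mp hz
  have : 1 < v w := by
    rw [← h, map_pow]
    exact one_lt_pow₀ hz hq.ne'
  exact absurd this (not_lt.mpr hw)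

/-- If `v c ≤ 1` then every finite constrained point `y` has `v y ≤ 1`. -/
theorem val_le_one {p q : ℕ} (hp : 0 < p) (hpq : p ≠ q) {c : ℂ} (hc : v c ≤ 1)
    {x w : ℕ → ℂ} (hx : ∀ n, x n ^ q = w n) (hw : ∀ n, x n ^ p + c = w (n + 1))
    (hfin : (Set.range w).Finite) : v (w 0) ≤ 1 := by
  by_contra h0
  have h0 : 1 < v (w 0) := not_le.mp h0
  have step : ∀ n, 1 < v (w n) → v (w (n + 1)) = v (x n) ^ p := by
    intro n hn
    have h1 : 1 < v (x n) := one_lt_of_pow v (hx n) hn
    have h2 : v c < v (x n ^ p) := by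
      rw [map_pow]
      exact lt_of_le_of_lt hc (one_lt_pow₀ h1 hp.ne')
    rw [← hw n, v.map_add_eq_of_lt_left h2, map_pow]
  have hall : ∀ n, 1 < v (w n) := by
    intro n
    induction n with
    | zero => exact h0
    | succ n ih =>
      rw [step n ih]
      exact one_lt_pow₀ (one_lt_of_pow v (hx n) ih) hp.ne'
  have hwq : ∀ n, v (w n) = v (x n) ^ q := fun n => by rw [← hx n, map_pow]
  have hinf : ∀ f : ℕ → Γ, (f = fun n => v (w n)) → Function.Injective f → False := by
    intro f hf hinj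
    have : Function.Injective w := by
      intro i j hij
      apply hinj
      rw [hf]
      simp only [hij]
    exact (Set.infinite_range_of_injective this) hfin
  rcases lt_or_gt_of_ne hpq with hlt | hgt
  · have hanti : StrictAnti (fun n => v (w n)) := by
      apply strictAnti_nat_of_succ_lt
      intro n
      rw [step n (hall n), hwq n]
      exact pow_lt_pow_right₀ (one_lt_of_pow v (hx n) (hall n)) hlt
    exact hinf _ rfl hanti.injective
  · have hmono : StrictMono (fun n => v (w n)) := by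
      apply strictMono_nat_of_lt_succ
      intro n
      rw [step n (hall n), hwq n]
      exact pow_lt_pow_right₀ (one_lt_of_pow v (hx n) (hall n)) hgt
    exact hinf _ rfl hmono.injective

/-- `q < p` and `v c > 1`: a finite constrained point `y` has `v y > 1`. -/
theorem one_lt_val_of_lt {p q : ℕ} (hq : 0 < q) (hpq : q < p) {c : ℂ} (hc : 1 < v c)
    {x w : ℕ → ℂ} (hx : ∀ n, x n ^ q = w n) (hw : ∀ n, x n ^ p + c = w (n + 1))
    (hfin : (Set.range w).Finite) : 1 < v (w 0) := by
  by_contra h0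
  have h0 : v (w 0) ≤ 1 := not_lt.mp h0
  have hx0 : v (x 0) ≤ 1 := le_one_of_pow v hq (hx 0) h0
  have hw1 : v (w 1) = v c := by
    have h2 : v (x 0 ^ p) < v c := by
      rw [map_pow]
      exact lt_of_le_of_lt (pow_le_one₀ zero_le hx0) hc
    rw [← hw 0, v.map_add_eq_of_lt_right h2]
  have hwq : ∀ n, v (w n) = v (x n) ^ q := fun n => by rw [← hx n, map_pow]
  have step : ∀ n, v c ≤ v (w (n + 1)) → v (w (n + 1)) < v (w (n + 2)) := by
    intro n hn
    have h1 : 1 < v (x (n + 1)) := one_lt_of_pow v (hx (n + 1)) (lt_of_lt_of_le hc hn)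
    have h3 : v (w (n + 1)) < v (x (n + 1) ^ p) := by
      rw [hwq (n + 1), map_pow]
      exact pow_lt_pow_right₀ h1 hpq
    have h2 : v c < v (x (n + 1) ^ p) := lt_of_le_of_lt hn h3
    rw [← hw (n + 1), v.map_add_eq_of_lt_left h2]
    exact h3
  have hall : ∀ n, v c ≤ v (w (n + 1)) := by
    intro n
    induction n with
    | zero => exact hw1.ge
    | succ n ih => exact ih.trans (step n ih).le
  have hmono : StrictMono (fun n => v (w (n + 1))) :=
    strictMono_nat_of_lt_succ (fun n => step n (hall n))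
  have hinj : Function.Injective (fun n => w (n + 1)) := by
    intro i j hij
    apply hmono.injective
    simp only at hij ⊢
    rw [hij]
  have : (Set.range (fun n => w (n + 1))).Finite :=
    hfin.subset (by rintro _ ⟨n, rfl⟩; exact ⟨n + 1, rfl⟩)
  exact (Set.infinite_range_of_injective hinj) this

theorem val_root_sub_one {p : ℕ} (hp : v (p : ℂ) = 1) {η : ℂ} (h1 : η ^ p = 1) (hne : η ≠ 1) :
    v (η - 1) = 1 := by
  have hp0 : p ≠ 0 := by
    rintro rfl
    simp at hp
  have hη : v η = 1 := by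
    have h : v η ^ p = 1 := by rw [← map_pow, h1, map_one]
    exact (pow_eq_one_iff_of_nonneg zero_le hp0).mp h
  have hle : v (η - 1) ≤ 1 := by
    refine (v.map_sub η 1).trans ?_
    rw [hη, map_one, max_self]
  have hgeom : ∑ i ∈ Finset.range p, η ^ i = 0 := by
    have := mul_neg_geom_sum η p
    rw [h1, sub_self] at this
    rcases mul_eq_zero.mp this with h | h
    · exact absurd (sub_eq_zero.mp h).symm hne
    · exact h
  have hsum : (p : ℂ) = (1 - η) * ∑ i ∈ Finset.range p, ∑ j ∈ Finset.range i, η ^ j := by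
    rw [Finset.mul_sum]
    have : ∀ i ∈ Finset.range p, (1 - η) * ∑ j ∈ Finset.range i, η ^ j = 1 - η ^ i :=
      fun i _ => mul_neg_geom_sum η i
    rw [Finset.sum_congr rfl this, Finset.sum_sub_distrib, hgeom]
    simp
  have hs : v (∑ i ∈ Finset.range p, ∑ j ∈ Finset.range i, η ^ j) ≤ 1 := by
    refine v.map_sum_le (fun i _ => v.map_sum_le (fun j _ => ?_))
    rw [map_pow, hη, one_pow]
  have h2 : v (p : ℂ) ≤ v (1 - η) := by
    rw [hsum, map_mul]
    exact mul_le_of_le_one_right' hs
  rw [hp, Valuation.map_sub_swap] at h2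
  exact le_antisymm hle h2

/-- `p < q`, `v p = 1` and `v c > 1`: a finite constrained point `y` has `v y > 1`. -/
theorem one_lt_val_of_gt {p q : ℕ} (hp : v (p : ℂ) = 1) (hq : 0 < q) (hpq : p < q) {c : ℂ}
    (hc : 1 < v c) {x w : ℕ → ℂ} (hx : ∀ n, x n ^ q = w n) (hw : ∀ n, x n ^ p + c = w (n + 1))
    (hfin : (Set.range w).Finite) : 1 < v (w 0) := by
  by_contra h0
  have h0 : v (w 0) ≤ 1 := not_lt.mp h0
  have hwq : ∀ n, v (w n) = v (x n) ^ q := fun n => by rw [← hx n, map_pow]
  have hx0 : v (x 0) ≤ 1 := le_one_of_pow v hq (hx 0) h0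
  have hlt : ∀ n, v (x n ^ p) < v c ∧ v (w (n + 1)) = v c := by
    intro n
    induction n with
    | zero =>
      have h2 : v (x 0 ^ p) < v c := by
        rw [map_pow]
        exact lt_of_le_of_lt (pow_le_one₀ zero_le hx0) hc
      exact ⟨h2, by rw [← hw 0, v.map_add_eq_of_lt_right h2]⟩
    | succ n ih =>
      have h1 : 1 < v (x (n + 1)) := one_lt_of_pow v (hx (n + 1)) (by rw [ih.2]; exact hc)
      have h2 : v (x (n + 1) ^ p) < v c := by
        rw [← ih.2, hwq (n + 1), map_pow]
        exact pow_lt_pow_right₀ h1 hpq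
      exact ⟨h2, by rw [← hw (n + 1), v.map_add_eq_of_lt_right h2]⟩
  have hvw : ∀ n, v (w (n + 1)) = v c := fun n => (hlt n).2
  have hwc : ∀ n, v (w (n + 1) - c) < v c := by
    intro n
    have : w (n + 1) - c = x n ^ p := by rw [← hw n]; ring
    rw [this]
    exact (hlt n).1
  have hex : ∃ m, ∃ k, 0 < k ∧ w m = w (m + k) := by
    by_contra hno
    push Not at hno
    have hinj : Function.Injective w := by
      intro i j hij
      rcases lt_trichotomy i j with h | h | h
      · exact absurd (by rw [Nat.add_sub_cancel' h.le]; exact hij) (hno i (j - i) (by omega))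
      · exact h
      · exact absurd (by rw [Nat.add_sub_cancel' h.le]; exact hij.symm) (hno j (i - j) (by omega))
    exact (Set.infinite_range_of_injective hinj) hfin
  classical
  obtain ⟨k, hk, hmk⟩ := Nat.find_spec hex
  have hmin : ∀ m' < Nat.find hex, ¬ ∃ k, 0 < k ∧ w m' = w (m' + k) :=
    fun m' hm' => Nat.find_min hex hm'
  generalize Nat.find hex = m at hmk hmin
  obtain ⟨k, rfl⟩ : ∃ k', k = k' + 1 := ⟨k - 1, by omega⟩
  have hm0 : m ≠ 0 := by
    rintro rfl
    have := hvw (0 + k)
    rw [show 0 + k + 1 = 0 + (k + 1) by ring, ← hmk] at this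
    rw [this] at h0
    exact absurd hc (not_lt.mpr h0)
  obtain ⟨m, rfl⟩ : ∃ m', m = m' + 1 := ⟨m - 1, by omega⟩
  have hne : w m ≠ w (m + (k + 1)) := fun h => hmin m (by omega) ⟨k + 1, by omega, h⟩
  have hpow : x m ^ p = x (m + (k + 1)) ^ p := by
    have h1 := hw m
    have h2 := hw (m + (k + 1))
    rw [show m + (k + 1) + 1 = m + 1 + (k + 1) by ring, ← hmk, ← h1] at h2
    exact (add_right_cancel h2).symm
  have hxne : x (m + (k + 1)) ≠ 0 := by
    intro h
    have h1 := hwq (m + (k + 1))
    rw [h, map_zero, zero_pow hq.ne', show m + (k + 1) = (m + k) + 1 by ring, hvw] at h1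
    rw [h1] at hc
    exact absurd hc (not_lt.mpr zero_le)
  set η : ℂ := x m / x (m + (k + 1)) with hη
  have hη1 : η ^ p = 1 := by
    rw [hη, div_pow, hpow, div_self (pow_ne_zero _ hxne)]
  have hwm : w m = η ^ q * w (m + (k + 1)) := by
    rw [← hx m, ← hx (m + (k + 1)), hη, div_pow, div_mul_cancel₀ _ (pow_ne_zero _ hxne)]
  have hp0 : p ≠ 0 := by
    rintro rfl
    simp at hp
  have hvη : v η = 1 := by
    have h : v η ^ p = 1 := by rw [← map_pow, hη1, map_one]
    exact (pow_eq_one_iff_of_nonneg zero_le hp0).mp h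
  have hm1 : m ≠ 0 := by
    rintro rfl
    have h1 : v (w 0) = v c := by
      rw [hwm, map_mul, map_pow, hvη, one_pow, one_mul, show 0 + (k + 1) = k + 1 by ring, hvw]
    rw [h1] at h0
    exact absurd hc (not_lt.mpr h0)
  obtain ⟨m, rfl⟩ : ∃ m', m = m' + 1 := ⟨m - 1, by omega⟩
  have hηq : η ^ q ≠ 1 := by
    intro h
    apply hne
    rw [hwm, h, one_mul]
  have hηq1 : (η ^ q) ^ p = 1 := by rw [← pow_mul, mul_comm, pow_mul, hη1, one_pow]
  have hv1 := val_root_sub_one v hp hηq1 hηq
  have hid : (η ^ q - 1) * c = (w (m + 1) - c) - η ^ q * (w (m + 1 + (k + 1)) - c) := by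
    rw [hwm]; ring
  have hlt1 : v ((w (m + 1) - c) - η ^ q * (w (m + 1 + (k + 1)) - c)) < v c := by
    refine lt_of_le_of_lt (v.map_sub _ _) (max_lt (hwc m) ?_)
    rw [map_mul, map_pow, hvη, one_pow, one_mul]
    have h3 := hwc (m + (k + 1))
    rw [show m + (k + 1) + 1 = m + 1 + (k + 1) by ring] at h3
    exact h3
  rw [← hid, map_mul, hv1, one_mul] at hlt1
  exact lt_irrefl _ hlt1

end val

theorem ne_one_case {c : ℂ} (hc : c ≠ 0) {x w : ℕ → ℂ} (hx : ∀ n, x n ^ 1 = w n)
    (hw : ∀ n, x n ^ 1 + c = w (n + 1)) (hfin : (Set.range w).Finite) : False := by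
  have h : ∀ n : ℕ, w n = w 0 + n * c := by
    intro n
    induction n with
    | zero => simp
    | succ n ih => rw [← hw n, hx n, ih]; push_cast; ring
  have hinj : Function.Injective w := by
    intro i j hij
    rw [h i, h j] at hij
    have h1 := mul_right_cancel₀ hc (add_left_cancel hij)
    exact_mod_cast h1
  exact (Set.infinite_range_of_injective hinj) hfin

/-- The common point forces integrality, from one side. -/
theorem integral_of_mem {s : Set ℂ} {a : ℂ}
    (h : ∀ V : ValuationSubring ℂ, (∀ t ∈ s, V.valuation t ≤ 1) → V.valuation a ≤ 1) :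
    IsIntegral (Subring.closure s) a := by
  have h1 : a ∈ (⨅ V : {V : ValuationSubring ℂ // s ⊆ V.toSubring}, V.1.toSubring) := by
    rw [Subring.mem_iInf]
    rintro ⟨V, hV⟩
    have := h V (fun t ht => (V.valuation_le_one_iff t).mpr (hV ht))
    exact (V.valuation_le_one_iff a).mp this
  rw [iInf_valuationSubring_superset] at h1
  exact h1

theorem val_natCast_eq_one (V : ValuationSubring ℂ) {p : ℕ}
    (h : V.valuation ((p : ℂ)⁻¹) ≤ 1) (hp : 0 < p) : V.valuation (p : ℂ) = 1 := by
  have hle : V.valuation (p : ℂ) ≤ 1 := (V.valuation_le_one_iff _).mpr (natCast_mem V p)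
  have hp0 : (p : ℂ) ≠ 0 := by exact_mod_cast hp.ne'
  have hmul : V.valuation (p : ℂ) * V.valuation ((p : ℂ)⁻¹) = 1 := by
    rw [← map_mul, mul_inv_cancel₀ hp0, map_one]
  refine le_antisymm hle ?_
  calc (1 : _) = V.valuation (p : ℂ) * V.valuation ((p : ℂ)⁻¹) := hmul.symm
    _ ≤ V.valuation (p : ℂ) := mul_le_of_le_one_right' h

theorem side {p q : ℕ} (hp : 0 < p) (hq : 0 < q) (hpq : p ≠ q) {a b y : ℂ}
    (ha : Constrained p q a y) (hb : Constrained p q b y) :
    (q < p → IsIntegral (Subring.closure {b}) a) ∧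
    (p < q → IsIntegral (Subring.closure {b, (p : ℂ)⁻¹}) a) := by
  obtain ⟨x, w, h0, hx, hw, hfin⟩ := exists_path ha
  obtain ⟨x', w', h0', hx', hw', hfin'⟩ := exists_path hb
  constructor
  · intro hlt
    apply integral_of_mem
    intro V hV
    by_contra hva
    have hva := not_le.mp hva
    have h1 := one_lt_val_of_lt V.valuation hq hlt hva hx hw hfin
    have h2 := val_le_one V.valuation hp hpq (hV b rfl) hx' hw' hfin'
    rw [h0] at h1
    rw [h0'] at h2
    exact absurd h1 (not_lt.mpr h2)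
  · intro hlt
    apply integral_of_mem
    intro V hV
    by_contra hva
    have hva := not_le.mp hva
    have hpv : V.valuation (p : ℂ) = 1 := val_natCast_eq_one V (hV _ (by simp)) hp
    have h1 := one_lt_val_of_gt V.valuation hpv hq hlt hva hx hw hfin
    have h2 := val_le_one V.valuation hp hpq (hV b (by simp)) hx' hw' hfin'
    rw [h0] at h1
    rw [h0'] at h2
    exact absurd h1 (not_lt.mpr h2)

/-- For coprime `p, q` and `a ≠ b`, if the two unicritical correspondences have a common constrained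
point other than `∞`, then each of `a, b` is integral over the ring generated by the other one
(with `1/p` adjoined when `p < q`). -/
theorem result (p q : ℕ) (hp : 0 < p) (hq : 0 < q) (hpq : Nat.Coprime p q) (a b : ℂ)
    (hab : a ≠ b)
    (h : {y : OnePoint ℂ | Constrained p q a y ∧ Constrained p q b y} ≠ {OnePoint.infty}) :
    (q < p ∧ IsIntegral (Subring.closure {b}) a ∧ IsIntegral (Subring.closure {a}) b) ∨
    (p < q ∧ IsIntegral (Subring.closure {b, (p : ℂ)⁻¹}) a ∧
      IsIntegral (Subring.closure {a, (p : ℂ)⁻¹}) b) := by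
  obtain ⟨y, hya, hyb⟩ : ∃ y : ℂ, Constrained p q a y ∧ Constrained p q b y := by
    by_contra hno
    push Not at hno
    apply h
    ext y
    induction y using OnePoint.rec with
    | infty => simp [constrained_infty]
    | coe z =>
      simp only [Set.mem_ofPred_eq, Set.mem_singleton_iff, OnePoint.coe_ne_infty, iff_false,
        not_and]
      exact hno z
  rcases lt_trichotomy p q with hlt | heq | hgt
  · right
    exact ⟨hlt, (side hp hq hlt.ne hya hyb).2 hlt, (side hp hq hlt.ne hyb hya).2 hlt⟩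
  · exfalso
    subst heq
    have hp1 : p = 1 := by simpa using hpq
    subst hp1
    obtain ⟨x, w, h0, hx, hw, hfin⟩ := exists_path hya
    obtain ⟨x', w', h0', hx', hw', hfin'⟩ := exists_path hyb
    by_cases ha0 : a = 0
    · have hb0 : b ≠ 0 := fun hb => hab (by rw [ha0, hb])
      exact ne_one_case hb0 hx' hw' hfin'
    · exact ne_one_case ha0 hx hw hfin
  · left
    exact ⟨hgt, (side hp hq hgt.ne' hya hyb).1 hgt, (side hp hq hgt.ne' hyb hya).1 hgt⟩

end Pool.Agent.Results.MP_09973c_nt.Integrality
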